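import Pool.Agent.Helper5.FV.Stmts

/-!
# Row LMU: many unused colours only if there are many colours
-/

set_option autoImplicit false

open Finset Pool.Agent.Helper8.UN

namespace Pool.Agent.Helper5.FV

theorem lmu_empty {n : ℕ} (E : Finset (Finset (Fin n))) (k k' : ℕ) :
    PP E ∅ k = PP E ∅ k' := by
  unfold PP CC
  simp

theorem lmu_step (m a b x y x' y' θ c : ℝ) (hm : 0 ≤ m) (hθ : θ = 1 - 999 / 1000 / (m + 1))
    (hb0 : 0 ≤ b) (ha : 0 ≤ m - a) (hab : b - a ≤ 1 / 1000)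
    (hc : 0 ≤ c) (hy' : 0 ≤ y')
    (hx : x = (m - a) * x') (hy : y = (m + 1 - b) * y') (h : x' ≤ c * y') :
    x ≤ c * θ * y := by
  have hm1 : 0 < m + 1 := by linarith
  have h1 : m - a ≤ θ * (m + 1 - b) := by
    rw [hθ]
    have h2 : 999 / 1000 / (m + 1) * (m + 1 - b) ≤ 999 / 1000 := by
      rw [div_mul_eq_mul_div, div_le_iff₀ hm1]
      nlinarith
    nlinarith
  calc x = (m - a) * x' := hx
    _ ≤ (m - a) * (c * y') := mul_le_mul_of_nonneg_left h ha
    _ ≤ (θ * (m + 1 - b)) * (c * y') :=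
        mul_le_mul_of_nonneg_right h1 (mul_nonneg hc hy')
    _ = c * θ * y := by rw [hy]; ring

theorem lmu_ind {n D m : ℕ} (E : Finset (Finset (Fin n))) (hRAT : ST_RAT) (hT : Two E)
    (hD : BD E D) (hDm : D < m)
    (hh' : ∀ (W : Finset (Fin n)) (v : Fin n), v ∈ W →
      |hh E W (m + 1) v - hh E W m v| ≤ 1 / 1000) :
    ∀ (c : ℕ) (W : Finset (Fin n)), W.card = c →
      (PP E W m : ℝ) ≤ (1 - 999 / 1000 / ((m : ℝ) + 1)) ^ c * PP E W (m + 1) := by
  have hm0 : (0 : ℝ) ≤ m := Nat.cast_nonneg m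
  have hθ : (0 : ℝ) ≤ 1 - 999 / 1000 / ((m : ℝ) + 1) := by
    rw [sub_nonneg, div_le_one (by linarith)]
    linarith
  intro c
  induction c with
  | zero =>
    intro W hW
    rw [Finset.card_eq_zero] at hW
    subst hW
    rw [lmu_empty E m (m + 1)]
    simp
  | succ c ih =>
    intro W hW
    obtain ⟨v, hv⟩ : W.Nonempty := by
      rw [← Finset.card_pos]; omega
    have hc : (W.erase v).card = c := by
      rw [Finset.card_erase_of_mem hv]; omega
    have h1 := ih (W.erase v) hc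
    obtain ⟨h2, h3, h4, -⟩ := hRAT n D m E W v hT hD hDm hv
    obtain ⟨h5, h6, h7, -⟩ := hRAT n D (m + 1) E W v hT hD (by omega) hv
    have h8 := (abs_le.1 (hh' W v hv)).2
    have h9 : (D : ℝ) < m := by exact_mod_cast hDm
    rw [pow_succ]
    push_cast at h5
    exact lmu_step (m : ℝ) (hh E W m v) (hh E W (m + 1) v) _ _ _ _ _ _ hm0 rfl h6
      (by linarith) h8 (pow_nonneg hθ c) (Nat.cast_nonneg _) h2 h5 h1

theorem st_LMU (hRAT : ST_RAT) (hHDF : ST_HDF) (hPOS : ST_POS) (hBKD : ST_BKD)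
    (hB3N : ST_B3N) : ST_LMU := by
  obtain ⟨n1, h1⟩ := hHDF
  obtain ⟨n2, h2⟩ := hB3N
  refine ⟨max (max n1 n2) 3, ?_⟩
  intro n hn D0 r m E W hR hW hm hP
  have hn1 : n1 ≤ n := le_trans (le_trans (le_max_left _ _) (le_max_left _ _)) hn
  have hn2 : n2 ≤ n := le_trans (le_trans (le_max_right _ _) (le_max_left _ _)) hn
  have hn3 : 3 ≤ n := le_trans (le_max_right _ _) hn
  have hnR : (3 : ℝ) ≤ n := by exact_mod_cast hn3
  have hlog : 1 ≤ Real.log n := by
    rw [Real.le_log_iff_exp_le (by linarith)]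
    have := Real.exp_one_lt_d9
    linarith
  have hq : 0 ≤ (n : ℝ) / Real.log n := by positivity
  obtain ⟨hr4, hDD, -, hm4, -, -⟩ := h2 n hn2 D0 r m hR.d0 hR.r0 (by linarith)
  have hBD := hBKD n D0 r E hR.two hr4 hR.deg
  have hDm : DD n D0 r < m := by omega
  have hm4R : (10000 : ℝ) ≤ m := by exact_mod_cast hm4
  have hdiff : ∀ (W : Finset (Fin n)) (v : Fin n), v ∈ W →
      |hh E W (m + 1) v - hh E W m v| ≤ 1 / 1000 := by
    intro W' v hv
    have h3 := h1 n hn1 D0 r (m + 1) E W' v hR (by push_cast; linarith) hv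
    simpa using h3
  have h4 := lmu_ind E hRAT hR.two hBD hDm hdiff W.card W rfl
  have hpos : (0 : ℝ) < PP E W (m + 1) := by
    exact_mod_cast (hPOS n (DD n D0 r) (m + 1) E W hR.two hBD (by omega)).1
  by_contra hcon
  rw [not_le] at hcon
  have hm1 : (0 : ℝ) < (m : ℝ) + 1 := by linarith
  -- the bound on `m + 1`
  have h5 : (m : ℝ) + 1 ≤ 981 / 1000 * (n / Real.log n) := by linarith
  have h6 : ((m : ℝ) + 1) * Real.log n ≤ 981 / 1000 * n := by
    have h7 := mul_le_mul_of_nonneg_right h5 (by linarith : (0 : ℝ) ≤ Real.log n)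
    have h8 : 981 / 1000 * ((n : ℝ) / Real.log n) * Real.log n = 981 / 1000 * n := by
      field_simp
    rw [h8] at h7
    exact h7
  -- exponential bound
  have hθ0 : (0 : ℝ) ≤ 1 - 999 / 1000 / ((m : ℝ) + 1) := by
    rw [sub_nonneg, div_le_one hm1]
    linarith
  have hθ1 : 1 - 999 / 1000 / ((m : ℝ) + 1) ≤ Real.exp (-(999 / 1000 / ((m : ℝ) + 1))) := by
    have := Real.add_one_le_exp (-(999 / 1000 / ((m : ℝ) + 1)))
    linarith
  have hpow : (1 - 999 / 1000 / ((m : ℝ) + 1)) ^ W.card ≤ Real.exp (-Real.log n) := by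
    calc (1 - 999 / 1000 / ((m : ℝ) + 1)) ^ W.card
        ≤ Real.exp (-(999 / 1000 / ((m : ℝ) + 1))) ^ W.card := pow_le_pow_left₀ hθ0 hθ1 _
      _ = Real.exp (W.card * -(999 / 1000 / ((m : ℝ) + 1))) := by rw [← Real.exp_nat_mul]
      _ ≤ Real.exp (-Real.log n) := by
          apply Real.exp_le_exp.2
          have h9 : Real.log n ≤ W.card * (999 / 1000 / ((m : ℝ) + 1)) := by
            rw [mul_div_assoc', le_div_iff₀ hm1]
            nlinarith
          linarith
  have hexp : Real.exp (-Real.log n) = 1 / n := by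
    rw [Real.exp_neg, Real.exp_log (by linarith), one_div]
  rw [hexp] at hpow
  have h10 : (PP E W m : ℝ) ≤ 1 / n * PP E W (m + 1) :=
    le_trans h4 (mul_le_mul_of_nonneg_right hpow hpos.le)
  have h11 : 105 / 100 * (PP E W (m + 1) : ℝ) ≤ ((m : ℝ) + 1) * (1 / n * PP E W (m + 1)) :=
    le_trans hP (mul_le_mul_of_nonneg_left h10 hm1.le)
  have h12 : ((m : ℝ) + 1) * (1 / n) ≤ 1 := by
    rw [mul_one_div, div_le_one (by linarith)]
    nlinarith
  nlinarith

end Pool.Agent.Helper5.FV
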