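import Pool.Agent.Helper77.FV.U2

/-!
# Module U: the first case
-/

namespace Pool.Agent.Helper43.FV

open Pool.Agent.Helper43.RS
open scoped ComplexConjugate TensorProduct
open MvPolynomial

/-- multiplication by an element, on a subfield -/
noncomputable def U_mul {K : Type} [Field K] [Algebra ℂ K] (F : IntermediateField ℂ K) (c : K) :
    F →ₗ[ℂ] K :=
  (LinearMap.mulRight ℂ c).comp F.val.toLinearMap

theorem U_mul_apply {K : Type} [Field K] [Algebra ℂ K] (F : IntermediateField ℂ K) (c : K)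
    (f : F) : U_mul F c f = (f : K) * c := rfl

theorem st_U (hFINU : ST_FINU) (hDELTA : ST_DELTA) (hD3 : ST_D3) (hRIE : ST_RIE)
    (hRBP : ST_RBP) : ST_U := by
  classical
  intro K _ _ X A S F n y hC hcase
  obtain ⟨δ, hδ1, hδ2, hδ3, hδ4⟩ := hDELTA K X hC.model F hC.ff
  have hfin := hD3 K X hC.model F hC.ff
  obtain ⟨ρ, hρ⟩ := U_restr A F hC.stab
  have hpres : ∀ a ∈ A, Pres X a := by
    obtain ⟨C, hCC⟩ := hC.sys.mem
    intro a ha
    exact ((hCC a).mp ha).1
  have hres : ∀ a : A, ResTo F (a : K ≃ₐ[ℂ] K) (ρ a) := fun a f => hρ a f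
  have hhit : ∀ (a : A) (w : Pl F), actPl (ρ a) w ∈ Hit X F ↔ w ∈ Hit X F := by
    intro a w
    constructor
    · intro h
      have h1 := U_hit X F _ (hpres _ (a⁻¹).2) (ρ a⁻¹) (hres a⁻¹) _ h
      rwa [map_inv, U_act_inv_act] at h1
    · intro h
      exact U_hit X F _ (hpres _ a.2) (ρ a) (hres a) _ h
  -- the subgroup of finite index
  obtain ⟨A₀, hA₀, hA₀i, hA₀y⟩ := hC.fin
  have hyq : ∀ a ∈ A, ∀ i, (∃ u ∈ F, a (y i) = u * y i) ↔ a (y i) / y i ∈ F := by
    intro a _ i
    constructor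
    · rintro ⟨u, hu, h⟩
      rw [h, mul_div_assoc, div_self (hC.ne i), mul_one]
      exact hu
    · intro h
      exact ⟨_, h, by rw [div_mul_cancel₀ _ (hC.ne i)]⟩
  let B1 : Subgroup A :=
    { carrier := {a | ∀ i, ∃ u ∈ F, (a : K ≃ₐ[ℂ] K) (y i) = u * y i}
      one_mem' := fun i => ⟨1, F.one_mem, by rw [one_mul]; rfl⟩
      mul_mem' := by
        intro a b ha hb i
        obtain ⟨u, hu, h1⟩ := ha i
        obtain ⟨u', hu', h2⟩ := hb i
        refine ⟨(a : K ≃ₐ[ℂ] K) u' * u, F.mul_mem (hC.stab a a.2 u' hu') hu, ?_⟩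
        show (a : K ≃ₐ[ℂ] K) ((b : K ≃ₐ[ℂ] K) (y i)) = _
        rw [h2, map_mul, h1, mul_assoc]
      inv_mem' := by
        intro a ha i
        obtain ⟨u, hu, h1⟩ := ha i
        have h2 : ((a⁻¹ : A) : K ≃ₐ[ℂ] K) ((a : K ≃ₐ[ℂ] K) (y i)) = y i := by
          rw [Subgroup.coe_inv]
          exact (a : K ≃ₐ[ℂ] K).symm_apply_apply _
        rw [h1, map_mul] at h2
        have hu0 : ((a⁻¹ : A) : K ≃ₐ[ℂ] K) u ≠ 0 := by
          intro h3
          rw [h3, zero_mul] at h2
          exact hC.ne i h2.symm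
        refine ⟨(((a⁻¹ : A) : K ≃ₐ[ℂ] K) u)⁻¹, F.inv_mem (hC.stab _ (a⁻¹).2 u hu), ?_⟩
        rw [eq_inv_mul_iff_mul_eq₀ hu0]
        exact h2 }
  have hB1 : B1.index ≠ 0 := by
    have h1 : A₀.subgroupOf A ≤ B1 := by
      intro a ha i
      exact hA₀y a (Subgroup.mem_subgroupOf.mp ha) i
    intro h2
    apply hA₀i
    have h3 := Subgroup.index_dvd_of_le h1
    rw [h2] at h3
    exact zero_dvd_iff.mp h3
  let SP : Type := {w : Pl F // w ∉ Hit X F}
  have : Finite SP := hfin
  let _ : Fintype SP := Fintype.ofFinite SP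
  let ψ0 : A →* Function.End SP :=
    { toFun := fun a w => ⟨actPl (ρ a) w.1, fun h => w.2 ((hhit a w.1).mp h)⟩
      map_one' := by
        funext w
        apply Subtype.ext
        show actPl (ρ 1) w.1 = w.1
        rw [map_one, U_act_one]
      map_mul' := by
        intro a b
        funext w
        apply Subtype.ext
        show actPl (ρ (a * b)) w.1 = actPl (ρ a) (actPl (ρ b) w.1)
        rw [map_mul, U_act_mul] }
  let ψ : A →* Equiv.Perm SP := ψ0.toHomPerm
  have hψ : ∀ a, a ∈ ψ.ker ↔ ∀ w, w ∉ Hit X F → actPl (ρ a) w = w := by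
    intro a
    rw [MonoidHom.mem_ker]
    constructor
    · intro h w hw
      have h1 : ψ a ⟨w, hw⟩ = ⟨w, hw⟩ := by rw [h]; rfl
      exact congrArg Subtype.val h1
    · intro h
      apply Equiv.ext
      intro w
      exact Subtype.ext (h w.1 w.2)
  have hψi : ψ.ker.index ≠ 0 := (Subgroup.finiteIndex_ker ψ).index_ne_zero
  let B : Subgroup A := B1 ⊓ ψ.ker
  have hBi : B.index ≠ 0 := Subgroup.index_inf_ne_zero hB1 hψi
  obtain ⟨hA'le, hA'i⟩ := U_sub A B hBi
  have hBmem : ∀ a : A, a ∈ B ↔ (∀ i, (a : K ≃ₐ[ℂ] K) (y i) / y i ∈ F) ∧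
      ∀ w, w ∉ Hit X F → actPl (ρ a) w = w := by
    intro a
    rw [Subgroup.mem_inf, hψ]
    exact and_congr_left fun _ => forall_congr' fun i => hyq a a.2 i
  -- the factors
  let u : B → Fin n → F := fun a i => ⟨((a : A) : K ≃ₐ[ℂ] K) (y i) / y i, ((hBmem a).mp a.2).1 i⟩
  have hu : ∀ (a : B) i, ((a : A) : K ≃ₐ[ℂ] K) (y i) = (u a i : K) * y i := by
    intro a i
    show _ = _ / _ * _
    rw [div_mul_cancel₀ _ (hC.ne i)]
  have hu0 : ∀ (a : B) i, u a i ≠ 0 := by
    intro a i h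
    have h1 := hu a i
    rw [h] at h1
    have h2 : ((a : A) : K ≃ₐ[ℂ] K) (y i) = 0 := by rw [h1]; simp
    exact hC.ne i ((map_eq_zero_iff _ ((a : A) : K ≃ₐ[ℂ] K).injective).mp h2)
  have humul : ∀ (a b : B) i, u (a * b) i = ρ a (u b i) * u a i := by
    intro a b i
    apply Subtype.ext
    have h1 := hu (a * b) i
    have h2 : (((a * b : B) : A) : K ≃ₐ[ℂ] K) (y i)
        = ((a : A) : K ≃ₐ[ℂ] K) (((b : A) : K ≃ₐ[ℂ] K) (y i)) := rfl
    rw [h2, hu b i, map_mul, hu a i, ← mul_assoc] at h1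
    have h3 := mul_right_cancel₀ (hC.ne i) h1
    rw [← h3]
    show _ = ((ρ a (u b i) : F) : K) * (u a i : K)
    rw [hρ]
  have hufix : ∀ (a : B) (w : SP) (f : F), w.1.1 (ρ a f) = w.1.1 f := by
    intro a w f
    have h1 := ((hBmem a).mp a.2).2 w.1 w.2
    have h2 := U_act_apply (ρ (a : A)) w.1 f
    rw [h1] at h2
    exact h2
  let ε : Fin n × SP ≃ Fin (Fintype.card (Fin n × SP)) := Fintype.equivFin _
  let φ0 : B →* Multiplicative (Fin (Fintype.card (Fin n × SP)) → ℤ) :=
    { toFun := fun a => Multiplicative.ofAdd fun k => (ε.symm k).2.1.1 (u a (ε.symm k).1)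
      map_one' := by
        apply Multiplicative.toAdd.injective
        funext k
        show (ε.symm k).2.1.1 (u 1 (ε.symm k).1) = 0
        have h1 : u 1 (ε.symm k).1 = algebraMap ℂ F 1 := by
          rw [map_one]
          apply Subtype.ext
          show y (ε.symm k).1 / y (ε.symm k).1 = 1
          exact div_self (hC.ne _)
        rw [h1]
        exact (ε.symm k).2.1.2.const 1
      map_mul' := by
        intro a b
        apply Multiplicative.toAdd.injective
        funext k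
        show (ε.symm k).2.1.1 (u (a * b) (ε.symm k).1) =
          (ε.symm k).2.1.1 (u a (ε.symm k).1) + (ε.symm k).2.1.1 (u b (ε.symm k).1)
        rw [humul, (ε.symm k).2.1.2.mul _ _ ((map_ne_zero _).mpr (hu0 b _)) (hu0 a _), hufix,
          add_comm] }
  have hφ0 : ∀ a : B, φ0 a = 1 ↔ ∀ (i : Fin n) (w : SP), w.1.1 (u a i) = 0 := by
    intro a
    constructor
    · intro h i w
      have h1 := congrFun (congrArg Multiplicative.toAdd h) (ε (i, w))
      have h2 : (ε.symm (ε (i, w))).2.1.1 (u a (ε.symm (ε (i, w))).1) = 0 := h1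
      rwa [Equiv.symm_apply_apply] at h2
    · intro h
      apply Multiplicative.toAdd.injective
      funext k
      exact h _ _
  let eB : B ≃* B.map A.subtype := B.equivMapOfInjective A.subtype A.subtype_injective
  have heB : ∀ b : B, ((eB b : B.map A.subtype) : K ≃ₐ[ℂ] K) = ((b : A) : K ≃ₐ[ℂ] K) :=
    fun b => rfl
  -- the divisor D
  have hD : ∃ D : Dv F, 0 < dg D ∧ ∀ a : B, ∃ f : F, f ≠ 0 ∧
      ∀ w, (actPl (ρ (a : A)) w).1 f = D w - D (actPl (ρ (a : A)) w) := by
    rcases hcase with ⟨w₀, hw₀⟩ | ⟨D, hD, hDa⟩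
    · let D : Dv F := Finsupp.onFinset hfin.toFinset (fun w => if w ∉ Hit X F then 1 else 0)
        (by
          intro w hw
          rw [Set.Finite.mem_toFinset]
          by_contra hcon
          apply hw
          rw [if_neg]
          exact hcon)
      refine ⟨D, ?_, fun a => ⟨1, one_ne_zero, fun w => ?_⟩⟩
      · have h1 : dg D = ∑ w ∈ hfin.toFinset, (if w ∉ Hit X F then (1 : ℤ) else 0) :=
          Finsupp.onFinset_sum _ (fun _ => rfl)
        rw [h1]
        apply Finset.sum_pos'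
        · intro w _
          split_ifs <;> norm_num
        · refine ⟨w₀, (Set.Finite.mem_toFinset _).mpr hw₀, ?_⟩
          rw [if_pos (show w₀ ∉ Hit X F from hw₀)]
          norm_num
      · have h1 : D (actPl (ρ (a : A)) w) = D w := by
          show (if actPl (ρ (a : A)) w ∉ Hit X F then (1 : ℤ) else 0) =
            if w ∉ Hit X F then 1 else 0
          rw [hhit]
        rw [h1, sub_self, ← map_one (algebraMap ℂ F)]
        exact (actPl (ρ (a : A)) w).2.const 1
    · refine ⟨D, hD, fun a => ?_⟩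
      obtain ⟨f, hf, h⟩ := hDa (ρ (a : A))
      refine ⟨f, hf, fun w => ?_⟩
      have h1 := h (actPl (ρ (a : A)) w)
      rw [U_mapDv] at h1
      omega
  obtain ⟨D, hD0, hDa⟩ := hD
  -- the multiple m
  obtain ⟨⟨c, hc⟩, hgenD⟩ := hRBP F hC.ff
  obtain ⟨s, hs⟩ := hC.ff.fg
  have hm : ∃ m : ℕ, (∀ i, c ≤ dg (δ (y i) + m • D)) ∧ (c ≤ dg (m • D)) ∧
      (c ≤ (m : ℤ) * dg D - 1) ∧
      ∀ z ∈ s, ∃ f ∈ LL (m • D), f ≠ 0 ∧ z * f ∈ LL (m • D) := by
    have e1 : ∀ᶠ m : ℕ in Filter.atTop, ∀ i, c ≤ dg (δ (y i) + m • D) := by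
      rw [Filter.eventually_all]
      intro i
      filter_upwards [Filter.eventually_ge_atTop (c - dg (δ (y i))).toNat] with m hm
      rw [U_dg_add, U_dg_nsmul]
      have h1 : (c - dg (δ (y i))) ≤ m := by omega
      nlinarith
    have e2 : ∀ᶠ m : ℕ in Filter.atTop, c ≤ (m : ℤ) * dg D - 1 := by
      filter_upwards [Filter.eventually_ge_atTop (c + 1).toNat] with m hm
      have h1 : (c + 1) ≤ m := by omega
      nlinarith
    have e3 : ∀ᶠ m : ℕ in Filter.atTop, ∀ z ∈ s, ∃ f ∈ LL (m • D), f ≠ 0 ∧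
        z * f ∈ LL (m • D) := by
      rw [Filter.eventually_all_finset]
      intro z _
      obtain ⟨n₀, hn₀⟩ := hgenD D hD0 z
      filter_upwards [Filter.eventually_ge_atTop n₀] with m hm
      exact hn₀ m hm
    obtain ⟨m, h1, h2, h3⟩ := (e1.and (e2.and e3)).exists
    refine ⟨m, h1, ?_, h2, h3⟩
    rw [U_dg_nsmul]
    linarith
  obtain ⟨m, hm1, hm2, hm3, hm4⟩ := hm
  -- the subspaces
  let E : Fin n → Dv F := fun i => δ (y i) + m • D
  let E' : SP → Dv F := fun w => m • D - Finsupp.single w.1 1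
  have hE : ∀ i, ∀ w : Pl F, ∃ f ∈ LL (E i), f ≠ 0 ∧ w.1 f = -(E i) w := fun i =>
    hc (E i) (hm1 i)
  have hE' : ∀ i, ∀ w : Pl F, ∃ f ∈ LL (E' i), f ≠ 0 ∧ w.1 f = -(E' i) w := by
    intro i
    apply hc
    have h1 : dg (E' i) + dg (Finsupp.single i.1 1 : Dv F) = dg (m • D) := by
      rw [← U_dg_add]
      congr 1
      exact sub_add_cancel _ _
    rw [U_dg_single, U_dg_nsmul] at h1
    omega
  obtain ⟨i₀, hi₀⟩ := hC.one
  have hEi₀ : E i₀ = m • D := by
    show δ (y i₀) + m • D = m • D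
    rw [hi₀, hδ1, zero_add]
  let W : Fin n ⊕ SP → Submodule ℂ K := fun t =>
    Sum.elim (fun i => (LL (E i)).map (U_mul F (y i))) (fun w => (LL (E' w)).map (U_mul F 1)) t
  let V : Submodule ℂ K := ⨆ i, W (Sum.inl i)
  have hWV : ∀ t, W t ≤ V := by
    rintro (i | w)
    · exact le_iSup (fun i => W (Sum.inl i)) i
    · refine le_trans ?_ (le_iSup (fun i => W (Sum.inl i)) i₀)
      show (LL (E' w)).map (U_mul F 1) ≤ (LL (E i₀)).map (U_mul F (y i₀))
      rw [hi₀]
      apply Submodule.map_mono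
      rw [hEi₀]
      intro f hf h0 w'
      have h1 := hf h0 w'
      have h2 : (E' w) w' ≤ (m • D) w' := by
        show (m • D - Finsupp.single w.1 1 : Dv F) w' ≤ (m • D) w'
        rw [Finsupp.sub_apply, Finsupp.single_apply]
        split_ifs <;> omega
      omega
  have hWfin : ∀ i, Module.Finite ℂ (W (Sum.inl i)) := by
    intro i
    have := (hRIE F hC.ff).1 (E i)
    exact Module.Finite.map (LL (E i)) (U_mul F (y i))
  have : Module.Finite ℂ V := Submodule.finiteDimensional_iSup _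
  obtain ⟨N, v, Z, hli, hspan, hZ, hlin1, hlin2⟩ := U_lin V _ W hWV
  -- a place
  have hpl : ∃ w : Pl F, D w ≠ 0 := by
    by_contra hcon
    push Not at hcon
    have h1 : D = 0 := Finsupp.ext hcon
    rw [h1, U_dg_zero] at hD0
    exact lt_irrefl _ hD0
  obtain ⟨wp, -⟩ := hpl
  -- the ratios generate
  have hrat : RatGen v := by
    apply U_gen F s hs n y hC.gen
    · intro z hz
      obtain ⟨f, hf, hf0, hzf⟩ := hm4 z hz
      have h1 : ((z * f : F) : K) ∈ V := by
        apply hWV (Sum.inl i₀)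
        refine ⟨z * f, ?_, ?_⟩
        · rw [hEi₀]
          exact hzf
        · rw [U_mul_apply, hi₀, mul_one]
      have h2 : (f : K) ∈ V := by
        apply hWV (Sum.inl i₀)
        refine ⟨f, ?_, ?_⟩
        · rw [hEi₀]
          exact hf
        · rw [U_mul_apply, hi₀, mul_one]
      have hf0' : (f : K) ≠ 0 := fun h => hf0 (Subtype.ext h)
      have h3 := U_ratio v hli V hspan _ h1 _ h2 hf0'
      have h4 : ((z * f : F) : K) / (f : K) = z := by
        show (z : K) * f / f = z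
        rw [mul_div_assoc, div_self hf0', mul_one]
      rwa [h4] at h3
    · intro hFE i
      obtain ⟨g, hg, hg0, -⟩ := hE i wp
      obtain ⟨h, hh, hh0, -⟩ := hE i₀ wp
      have h1 : (g : K) * y i ∈ V := hWV (Sum.inl i) ⟨g, hg, rfl⟩
      have h2 : (h : K) ∈ V := hWV (Sum.inl i₀) ⟨h, hh, by rw [U_mul_apply, hi₀, mul_one]⟩
      have hg0' : (g : K) ≠ 0 := fun h => hg0 (Subtype.ext h)
      have hh0' : (h : K) ≠ 0 := fun h' => hh0 (Subtype.ext h')
      have h3 := U_ratio v hli V hspan _ h1 _ h2 hh0'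
      have h4 : y i = (g : K) * y i / (h : K) * ((h : K) / (g : K)) := by
        field_simp
      rw [h4]
      exact IntermediateField.mul_mem _ h3
        (IntermediateField.div_mem _ (hFE h.2) (hFE g.2))
  -- first direction
  have hdir1 : ∀ a : B, φ0 a = 1 → ∃ M ∈ Z, LinRel v ((a : A) : K ≃ₐ[ℂ] K) M := by
    intro a hφa
    rw [hφ0] at hφa
    obtain ⟨g, hg0, hg⟩ := hDa a
    have hdiv : ∀ i w, (actPl (ρ (a : A)) w).1 (u a i) =
        δ (y i) w - δ (y i) (actPl (ρ (a : A)) w) := by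
      intro i w
      by_cases hw : w ∈ Hit X F
      · have h1 := hδ4 _ (hpres _ (a : A).2) (ρ (a : A)) (hres _) (y i) (hC.ne i) w
        rw [hu a i] at h1
        rw [hδ3 (y i) (hC.ne i) (u a i) (hu0 a i) _ ((hhit a w).mpr hw)] at h1
        omega
      · rw [((hBmem a).mp a.2).2 w hw, sub_self]
        exact hφa i ⟨w, hw⟩
    have hgm : ∀ w, (actPl (ρ (a : A)) w).1 (g ^ m) =
        (m • D) w - (m • D) (actPl (ρ (a : A)) w) := by
      intro w
      rw [U_pow _ g hg0, hg w]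
      show (m : ℤ) * (D w - D _) = m • D w - m • D _
      rw [nsmul_eq_mul, nsmul_eq_mul]
      ring
    have hWi : ∀ t : Fin n ⊕ SP, ∀ z ∈ W t, ((g ^ m : F) : K) * ((a : A) : K ≃ₐ[ℂ] K) z ∈ W t := by
      rintro (i | w') z ⟨f, hf, rfl⟩
      · refine ⟨(g ^ m * u a i) * ρ (a : A) f, ?_, ?_⟩
        · apply U_fwd (E i) (ρ (a : A)) _ (mul_ne_zero (pow_ne_zero m hg0) (hu0 a i)) _ f hf
          intro w
          rw [(actPl (ρ (a : A)) w).2.mul _ _ (pow_ne_zero m hg0) (hu0 a i), hgm, hdiv]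
          show _ = (δ (y i) w + (m • D) w) - (δ (y i) _ + (m • D) _)
          ring
        · rw [U_mul_apply, U_mul_apply, map_mul, hu a i]
          show ((g ^ m : F) : K) * (u a i : K) * ((ρ (a : A) f : F) : K) * y i = _
          rw [hρ]
          ring
      · refine ⟨g ^ m * ρ (a : A) f, ?_, ?_⟩
        · apply U_fwd (E' w') (ρ (a : A)) _ (pow_ne_zero m hg0) _ f hf
          intro w
          rw [hgm]
          show _ = ((m • D) w - Finsupp.single w'.1 1 w) -
            ((m • D) _ - Finsupp.single w'.1 1 (actPl (ρ (a : A)) w))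
          have h1 : Finsupp.single w'.1 (1 : ℤ) w
              = Finsupp.single w'.1 1 (actPl (ρ (a : A)) w) := by
            rw [Finsupp.single_apply, Finsupp.single_apply]
            have h2 := ((hBmem a).mp a.2).2 w'.1 w'.2
            have h3 : w'.1 = w ↔ w'.1 = actPl (ρ (a : A)) w := by
              constructor
              · rintro h
                rw [← h, h2]
              · intro h
                apply U_act_inj (ρ (a : A))
                rw [h2, h]
            simp only [h3]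
          rw [h1]
          ring
        · rw [U_mul_apply, U_mul_apply, mul_one, mul_one]
          show ((g ^ m : F) : K) * ((ρ (a : A) f : F) : K) = _
          rw [hρ]
    apply hlin1 _ ((g ^ m : F) : K) (fun h => pow_ne_zero m hg0 (Subtype.ext h)) _ hWi
    let T0 : K →ₗ[ℂ] K := (LinearMap.mulLeft ℂ ((g ^ m : F) : K)).comp
      ((a : A) : K ≃ₐ[ℂ] K).toLinearMap
    have hle : V ≤ V.comap T0 := iSup_le fun i z hz => hWV _ (hWi (Sum.inl i) z hz)
    exact fun z hz => hle hz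
  -- second direction
  have hdir2 : ∀ a : A, (∃ M ∈ Z, LinRel v (a : K ≃ₐ[ℂ] K) M) →
      ∃ h : a ∈ B, φ0 ⟨a, h⟩ = 1 := by
    intro a hM
    obtain ⟨f, hf0, hWW⟩ := hlin2 (a : K ≃ₐ[ℂ] K) hM
    -- f ∈ F
    have hfF : f ∈ F := by
      obtain ⟨t, ht, ht0, -⟩ := hE i₀ wp
      obtain ⟨_, ⟨s', hs', rfl⟩, h1⟩ := (hWW (Sum.inl i₀)).1 (U_mul F (y i₀) t) ⟨t, ht, rfl⟩
      rw [U_mul_apply, U_mul_apply, hi₀, mul_one, mul_one] at h1
      have hat0 : (a : K ≃ₐ[ℂ] K) t ≠ 0 :=
        (map_ne_zero _).mpr fun h => ht0 (Subtype.ext h)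
      have hs0 : (s' : K) ≠ 0 := by
        intro h
        rw [h, mul_zero] at h1
        exact hat0 h1
      have h2 : f = (a : K ≃ₐ[ℂ] K) t / s' := by
        rw [h1, mul_div_assoc, div_self hs0, mul_one]
      rw [h2]
      exact F.div_mem (hC.stab a a.2 t t.2) s'.2
    have hyF : ∀ i, (a : K ≃ₐ[ℂ] K) (y i) / y i ∈ F := by
      intro i
      obtain ⟨t, ht, ht0, -⟩ := hE i wp
      obtain ⟨_, ⟨s', hs', rfl⟩, h1⟩ := (hWW (Sum.inl i)).1 (U_mul F (y i) t) ⟨t, ht, rfl⟩
      rw [U_mul_apply, U_mul_apply, map_mul] at h1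
      have hat0 : (a : K ≃ₐ[ℂ] K) t ≠ 0 :=
        (map_ne_zero _).mpr fun h => ht0 (Subtype.ext h)
      have h2 : (a : K ≃ₐ[ℂ] K) (y i) / y i = f * s' / (a : K ≃ₐ[ℂ] K) t := by
        rw [div_eq_div_iff (hC.ne i) hat0, mul_comm, h1]
        ring
      rw [h2]
      exact F.div_mem (F.mul_mem hfF s'.2) (hC.stab a a.2 t t.2)
    let uu : Fin n → F := fun i => ⟨(a : K ≃ₐ[ℂ] K) (y i) / y i, hyF i⟩
    have huu : ∀ i, (a : K ≃ₐ[ℂ] K) (y i) = (uu i : K) * y i := by
      intro i
      show _ = _ / _ * _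
      rw [div_mul_cancel₀ _ (hC.ne i)]
    have huu0 : ∀ i, uu i ≠ 0 := by
      intro i h
      have h1 := huu i
      rw [h] at h1
      have h2 : (a : K ≃ₐ[ℂ] K) (y i) = 0 := by rw [h1]; simp
      exact hC.ne i ((map_eq_zero_iff _ (a : K ≃ₐ[ℂ] K).injective).mp h2)
    let ff : F := ⟨f, hfF⟩
    have hff0 : ff ≠ 0 := fun h => hf0 (congrArg Subtype.val h)
    -- the values
    have hval : ∀ i w, (actPl (ρ a) w).1 (ff / uu i) = E i (actPl (ρ a) w) - E i w := by
      intro i
      apply U_bpf (E i) (hE i) (ρ a) _ (div_ne_zero hff0 (huu0 i))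
      · intro t ht
        obtain ⟨_, ⟨s', hs', rfl⟩, h1⟩ := (hWW (Sum.inl i)).1 (U_mul F (y i) t) ⟨t, ht, rfl⟩
        refine ⟨s', hs', ?_⟩
        rw [U_mul_apply, U_mul_apply, map_mul, huu i, ← mul_assoc, ← mul_assoc] at h1
        have h2 := mul_right_cancel₀ (hC.ne i) h1
        have h3 : ρ a t * uu i = ff * s' := by
          apply Subtype.ext
          show ((ρ a t : F) : K) * (uu i : K) = f * s'
          rw [hρ]
          exact h2
        rw [div_mul_eq_mul_div, eq_div_iff (huu0 i)]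
        exact h3
      · intro s' hs'
        obtain ⟨_, ⟨t, ht, rfl⟩, h1⟩ := (hWW (Sum.inl i)).2 (U_mul F (y i) s') ⟨s', hs', rfl⟩
        refine ⟨t, ht, ?_⟩
        rw [U_mul_apply, U_mul_apply, map_mul, huu i, ← mul_assoc, ← mul_assoc] at h1
        have h2 := mul_right_cancel₀ (hC.ne i) h1
        have h3 : ρ a t * uu i = ff * s' := by
          apply Subtype.ext
          show ((ρ a t : F) : K) * (uu i : K) = f * s'
          rw [hρ]
          exact h2
        rw [div_mul_eq_mul_div, eq_div_iff (huu0 i)]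
        exact h3
    have hval0 : ∀ w, (actPl (ρ a) w).1 ff = (m • D) (actPl (ρ a) w) - (m • D) w := by
      intro w
      have h1 := hval i₀ w
      have h2 : uu i₀ = 1 := by
        apply Subtype.ext
        show (a : K ≃ₐ[ℂ] K) (y i₀) / y i₀ = 1
        rw [hi₀, map_one, div_one]
      rw [h2, div_one, hEi₀] at h1
      exact h1
    have hval' : ∀ (w' : SP) w, (actPl (ρ a) w).1 ff = E' w' (actPl (ρ a) w) - E' w' w := by
      intro w'
      apply U_bpf (E' w') (hE' w') (ρ a) _ hff0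
      · intro t ht
        obtain ⟨_, ⟨s', hs', rfl⟩, h1⟩ := (hWW (Sum.inr w')).1 (U_mul F 1 t) ⟨t, ht, rfl⟩
        refine ⟨s', hs', ?_⟩
        rw [U_mul_apply, U_mul_apply, mul_one, mul_one] at h1
        apply Subtype.ext
        show ((ρ a t : F) : K) = f * s'
        rw [hρ]
        exact h1
      · intro s' hs'
        obtain ⟨_, ⟨t, ht, rfl⟩, h1⟩ := (hWW (Sum.inr w')).2 (U_mul F 1 s') ⟨s', hs', rfl⟩
        refine ⟨t, ht, ?_⟩
        rw [U_mul_apply, U_mul_apply, mul_one, mul_one] at h1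
        apply Subtype.ext
        show ((ρ a t : F) : K) = f * s'
        rw [hρ]
        exact h1
    have hfix : ∀ w, w ∉ Hit X F → actPl (ρ a) w = w := by
      intro w hw
      have h1 := hval' ⟨w, hw⟩ w
      rw [hval0 w] at h1
      have h2 : (E' ⟨w, hw⟩) w = (m • D) w - 1 := by
        show (m • D - Finsupp.single w 1 : Dv F) w = _
        rw [Finsupp.sub_apply, Finsupp.single_eq_same]
      have h3 : (E' ⟨w, hw⟩) (actPl (ρ a) w)
          = (m • D) (actPl (ρ a) w) - (Finsupp.single w 1 : Dv F) (actPl (ρ a) w) := by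
        show (m • D - Finsupp.single w 1 : Dv F) _ = _
        rw [Finsupp.sub_apply]
      rw [h2, h3, Finsupp.single_apply] at h1
      by_contra hcon
      rw [if_neg (fun h => hcon h.symm)] at h1
      omega
    have haB : a ∈ B := (hBmem a).mpr ⟨hyF, hfix⟩
    refine ⟨haB, ?_⟩
    rw [hφ0]
    intro i w
    show w.1.1 (uu i) = 0
    have h1 := hval i w.1
    have h2 := hval0 w.1
    rw [hfix w.1 w.2, sub_self] at h1 h2
    have h3 : ff / uu i * uu i = ff := div_mul_cancel₀ _ (huu0 i)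
    have h4 := w.1.2.mul _ _ (div_ne_zero hff0 (huu0 i)) (huu0 i)
    rw [h3, h1, h2] at h4
    omega
  -- conclusion
  refine hFINU K X A S hC.model hC.sys (B.map A.subtype) hA'le hA'i _
    (φ0.comp eB.symm.toMonoidHom) N v hli hrat Z hZ ?_ ?_
  · intro a
    obtain ⟨b, rfl⟩ := eB.surjective a
    have h1 : (φ0.comp eB.symm.toMonoidHom) (eB b) = φ0 b := by
      show φ0 (eB.symm (eB b)) = φ0 b
      rw [MulEquiv.symm_apply_apply]
    rw [h1]
    constructor
    · intro h
      exact hdir1 b h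
    · intro h
      obtain ⟨h2, h3⟩ := hdir2 (b : A) h
      exact h3
  · intro a ha h
    obtain ⟨h2, -⟩ := hdir2 ⟨a, ha⟩ h
    exact ⟨⟨a, ha⟩, h2, rfl⟩

end Pool.Agent.Helper43.FV
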