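import Pool.Agent.Helper43.FV.Spec

/-!
# Auxiliary linear algebra for the module U
-/

namespace Pool.Agent.Helper43.FV

open Pool.Agent.Helper43.RS
open scoped ComplexConjugate TensorProduct
open MvPolynomial

/-- The stabilizer of a set of subspaces is Zariski closed. -/
theorem U_stabZ {N : ℕ} (U : Set (Submodule ℂ (Fin N → ℂ))) :
    ∃ Z : Subgroup (GL (Fin N) ℂ), ZClosed (Z : Set (GL (Fin N) ℂ)) ∧
      ∀ M : GL (Fin N) ℂ, M ∈ Z ↔
        ∀ W ∈ U, ∀ x ∈ W, (M : Matrix (Fin N) (Fin N) ℂ).mulVec x ∈ W := by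
  classical
  have hinv : ∀ (M : GL (Fin N) ℂ) (W : Submodule ℂ (Fin N → ℂ)),
      (∀ x ∈ W, (M : Matrix (Fin N) (Fin N) ℂ).mulVec x ∈ W) →
      ∀ x ∈ W, ((M⁻¹ : GL (Fin N) ℂ) : Matrix (Fin N) (Fin N) ℂ).mulVec x ∈ W := by
    intro M W hM x hx
    have hle : W ≤ W.comap (Matrix.mulVecLin (M : Matrix (Fin N) (Fin N) ℂ)) := by
      intro z hz
      exact hM z hz
    let T : W →ₗ[ℂ] W := (Matrix.mulVecLin (M : Matrix (Fin N) (Fin N) ℂ)).restrict hle
    have hinj : Function.Injective T := by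
      intro z z' hzz
      apply Subtype.ext
      have h1 : (M : Matrix (Fin N) (Fin N) ℂ).mulVec (z : Fin N → ℂ)
          = (M : Matrix (Fin N) (Fin N) ℂ).mulVec (z' : Fin N → ℂ) :=
        congrArg Subtype.val hzz
      have h2 := congrArg
        (((M⁻¹ : GL (Fin N) ℂ) : Matrix (Fin N) (Fin N) ℂ).mulVec) h1
      rw [Matrix.mulVec_mulVec, Matrix.mulVec_mulVec, ← Units.val_mul, inv_mul_cancel,
        Units.val_one, Matrix.one_mulVec, Matrix.one_mulVec] at h2
      exact h2
    have hsurj : Function.Surjective T := LinearMap.injective_iff_surjective.mp hinj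
    obtain ⟨z, hz⟩ := hsurj ⟨x, hx⟩
    have h1 : (M : Matrix (Fin N) (Fin N) ℂ).mulVec (z : Fin N → ℂ) = x :=
      congrArg Subtype.val hz
    rw [← h1, Matrix.mulVec_mulVec, ← Units.val_mul, inv_mul_cancel,
      Units.val_one, Matrix.one_mulVec]
    exact z.2
  refine ⟨{ carrier := {M | ∀ W ∈ U, ∀ x ∈ W, (M : Matrix (Fin N) (Fin N) ℂ).mulVec x ∈ W}
            one_mem' := ?_
            mul_mem' := ?_
            inv_mem' := ?_ }, ?_, fun M => Iff.rfl⟩
  · intro M M' hM hM' W hW x hx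
    rw [Units.val_mul, ← Matrix.mulVec_mulVec]
    exact hM W hW _ (hM' W hW x hx)
  · intro W _ x hx
    rw [Units.val_one, Matrix.one_mulVec]
    exact hx
  · intro M hM W hW x hx
    exact hinv M W (hM W hW) x hx
  · refine ⟨{p | ∃ W ∈ U, ∃ x ∈ W, ∃ l : Module.Dual ℂ (Fin N → ℂ), (∀ z ∈ W, l z = 0) ∧
      p = ∑ i, ∑ j, C (l (Pi.single i 1) * x j) * X (Sum.inl (i, j))}, ?_⟩
    have hev : ∀ (M : GL (Fin N) ℂ) (x : Fin N → ℂ) (l : Module.Dual ℂ (Fin N → ℂ)),
        eval (entries M) (∑ i, ∑ j, C (l (Pi.single i 1) * x j) * X (Sum.inl (i, j)))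
          = l ((M : Matrix (Fin N) (Fin N) ℂ).mulVec x) := by
      intro M x l
      have h1 : (M : Matrix (Fin N) (Fin N) ℂ).mulVec x
          = ∑ i, ((M : Matrix (Fin N) (Fin N) ℂ).mulVec x i) • (Pi.single i 1 : Fin N → ℂ) := by
        funext k
        simp [Finset.sum_apply, Pi.single_apply]
      rw [h1, map_sum, map_sum]
      refine Finset.sum_congr rfl fun i _ => ?_
      rw [map_smul, map_sum, smul_eq_mul, Matrix.mulVec, dotProduct, Finset.sum_mul]
      refine Finset.sum_congr rfl fun j _ => ?_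
      rw [map_mul, eval_C, eval_X]
      simp only [entries, Sum.elim_inl]
      ring
    ext M
    constructor
    · rintro hM p ⟨W, hW, x, hx, l, hl, rfl⟩
      rw [hev]
      exact hl _ (hM W hW x hx)
    · intro hM W hW x hx
      by_contra hcon
      obtain ⟨l, hl1, hl2⟩ := Submodule.exists_dual_map_eq_bot_of_notMem hcon inferInstance
      apply hl1
      rw [← hev]
      refine hM _ ⟨W, hW, x, hx, l, fun z hz => ?_, rfl⟩
      have h3 : l z ∈ W.map l := Submodule.mem_map_of_mem hz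
      rw [hl2] at h3
      exact (Submodule.mem_bot ℂ).mp h3

section Lin

variable {K : Type} [Field K] [Algebra ℂ K]

/-- Linear algebra: a group of matrices describing the automorphisms preserving subspaces up to
a common factor. -/
theorem U_lin (V : Submodule ℂ K) [Module.Finite ℂ V] (I : Type) (W : I → Submodule ℂ K)
    (hW : ∀ t, W t ≤ V) :
    ∃ (N : ℕ) (v : Fin N → K) (Z : Subgroup (GL (Fin N) ℂ)), LinearIndependent ℂ v ∧
      Submodule.span ℂ (Set.range v) = V ∧ ZClosed (Z : Set (GL (Fin N) ℂ)) ∧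
      (∀ a : K ≃ₐ[ℂ] K, ∀ f : K, f ≠ 0 → (∀ t ∈ V, f * a t ∈ V) →
        (∀ i, ∀ t ∈ W i, f * a t ∈ W i) → ∃ M ∈ Z, LinRel v a M) ∧
      ∀ a : K ≃ₐ[ℂ] K, (∃ M ∈ Z, LinRel v a M) → ∃ f, f ≠ 0 ∧
        ∀ i, (∀ t ∈ W i, ∃ s ∈ W i, a t = f * s) ∧ ∀ s ∈ W i, ∃ t ∈ W i, a t = f * s := by
  classical
  let N := Module.finrank ℂ V
  let b : Module.Basis (Fin N) ℂ V := Module.finBasis ℂ V
  let v : Fin N → K := fun i => (b i : K)
  have hli : LinearIndependent ℂ v := by
    have := b.linearIndependent.map' V.subtype (Submodule.ker_subtype V)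
    exact this
  have hspan : Submodule.span ℂ (Set.range v) = V := by
    have h1 : Set.range v = V.subtype '' Set.range b := by
      ext x
      simp only [Set.mem_range, Set.mem_image, exists_exists_eq_and]
      rfl
    rw [h1, Submodule.span_image, b.span_eq, Submodule.map_top, Submodule.range_subtype]
  let ι : (Fin N → ℂ) →ₗ[ℂ] K := Fintype.linearCombination ℂ v
  have hι : ∀ x, ι x = ∑ i, x i • v i := fun x => Fintype.linearCombination_apply ℂ v x
  have hιinj : Function.Injective ι := linearIndependent_iff_injective_fintypeLinearCombination.mp hli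
  have hιV : ∀ t, t ∈ V ↔ ∃ x, ι x = t := by
    intro t
    rw [← hspan, ← Fintype.range_linearCombination]
    exact Iff.rfl
  obtain ⟨Z, hZ, hmem⟩ := U_stabZ (Set.range fun i : I => (W i).comap ι)
  have hact : ∀ (a : K ≃ₐ[ℂ] K) (f : K) (M : GL (Fin N) ℂ),
      (∀ i, a (v i) = f * ∑ j, (M : Matrix (Fin N) (Fin N) ℂ) j i • v j) →
      ∀ x, a (ι x) = f * ι ((M : Matrix (Fin N) (Fin N) ℂ).mulVec x) := by
    intro a f M hM x
    rw [hι, map_sum, hι]
    simp only [Matrix.mulVec, dotProduct]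
    have h1 : ∀ i, a (x i • v i) = x i • (f * ∑ j, (M : Matrix (Fin N) (Fin N) ℂ) j i • v j) := by
      intro i
      rw [map_smul, hM i]
    rw [Finset.sum_congr rfl fun i _ => h1 i]
    simp only [Finset.mul_sum, Finset.smul_sum, Finset.sum_smul]
    rw [Finset.sum_comm]
    refine Finset.sum_congr rfl fun j _ => Finset.sum_congr rfl fun i _ => ?_
    rw [mul_smul_comm, mul_smul_comm, smul_smul, mul_comm (x i)]
  refine ⟨N, v, Z, hli, hspan, hZ, ?_, ?_⟩
  · intro a f hf hV hWi
    -- the endomorphism of V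
    let T0 : K →ₗ[ℂ] K := (LinearMap.mulLeft ℂ f).comp a.toLinearMap
    have hT0 : ∀ t, T0 t = f * a t := fun t => rfl
    have hle : V ≤ V.comap T0 := fun t ht => hV t ht
    have hb : ∀ i, ∃ x, ι x = f * a (v i) := fun i => (hιV _).mp (hV _ (b i).2)
    choose m hm using hb
    let M0 : Matrix (Fin N) (Fin N) ℂ := Matrix.of fun j i => m i j
    have hM0 : ∀ i, f * a (v i) = ∑ j, M0 j i • v j := by
      intro i
      rw [← hm i, hι]
      rfl
    have hM0x : ∀ x, f * a (ι x) = ι (M0.mulVec x) := by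
      intro x
      rw [hι, map_sum, hι]
      simp only [Matrix.mulVec, dotProduct]
      rw [Finset.mul_sum]
      have h1 : ∀ i, f * a (x i • v i) = x i • ∑ j, M0 j i • v j := by
        intro i
        rw [map_smul, mul_smul_comm, hM0 i]
      rw [Finset.sum_congr rfl fun i _ => h1 i]
      simp only [Finset.smul_sum, Finset.sum_smul]
      rw [Finset.sum_comm]
      refine Finset.sum_congr rfl fun j _ => Finset.sum_congr rfl fun i _ => ?_
      rw [smul_smul, mul_comm (x i)]
    have hinj : Function.Injective M0.mulVec := by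
      intro x x' hxx
      apply hιinj
      have h1 : f * a (ι x) = f * a (ι x') := by rw [hM0x, hM0x, hxx]
      exact a.injective (mul_left_cancel₀ hf h1)
    have hunit : IsUnit M0 := Matrix.mulVec_injective_iff_isUnit.mp hinj
    obtain ⟨M, hMM⟩ := hunit
    refine ⟨M, ?_, f⁻¹, inv_ne_zero hf, ?_⟩
    · rw [hmem]
      rintro _ ⟨i, rfl⟩ x hx
      rw [Submodule.mem_comap] at hx ⊢
      have h1 := hWi i _ hx
      rw [hM0x, ← hMM] at h1
      exact h1
    · intro i
      have h1 := hM0 i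
      rw [← hMM] at h1
      have h2 : f⁻¹ * (f * a (v i)) = a (v i) := by
        rw [← mul_assoc, inv_mul_cancel₀ hf, one_mul]
      rw [← h2, h1]
  · rintro a ⟨M, hM, f, hf, hrel⟩
    have hax := hact a f M hrel
    have hMinv : M⁻¹ ∈ Z := Z.inv_mem hM
    rw [hmem] at hM hMinv
    refine ⟨f, hf, fun i => ⟨fun t ht => ?_, fun s hs => ?_⟩⟩
    · obtain ⟨x, rfl⟩ := (hιV t).mp (hW i ht)
      exact ⟨_, hM _ ⟨i, rfl⟩ x ht, hax x⟩
    · obtain ⟨x, rfl⟩ := (hιV s).mp (hW i hs)
      refine ⟨_, hMinv _ ⟨i, rfl⟩ x hs, ?_⟩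
      rw [hax, Matrix.mulVec_mulVec, ← Units.val_mul, mul_inv_cancel, Units.val_one,
        Matrix.one_mulVec]

/-- ratios -/
theorem U_ratio {N : ℕ} (v : Fin N → K) (hli : LinearIndependent ℂ v) (V : Submodule ℂ K)
    (hV : Submodule.span ℂ (Set.range v) = V) (p : K) (hp : p ∈ V) (q : K) (hq : q ∈ V)
    (hq0 : q ≠ 0) :
    p / q ∈ IntermediateField.adjoin ℂ {x : K | ∃ i j, x = v i / v j} := by
  set E := IntermediateField.adjoin ℂ {x : K | ∃ i j, x = v i / v j} with hE
  have hN : ∃ k : Fin N, True := by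
    by_contra hcon
    push Not at hcon
    have h1 : Set.range v = ∅ := by
      ext x
      simp only [Set.mem_range, Set.mem_empty_iff_false, iff_false]
      rintro ⟨k, -⟩
      exact hcon k
    rw [← hV, h1, Submodule.span_empty] at hq
    exact hq0 ((Submodule.mem_bot ℂ).mp hq)
  obtain ⟨k, -⟩ := hN
  have hk : v k ≠ 0 := hli.ne_zero k
  have key : ∀ t ∈ V, t / v k ∈ E := by
    intro t ht
    rw [← hV] at ht
    induction ht using Submodule.span_induction with
    | mem x hx =>
      obtain ⟨i, rfl⟩ := hx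
      exact IntermediateField.subset_adjoin ℂ _ ⟨i, k, rfl⟩
    | zero =>
      rw [zero_div]
      exact E.zero_mem
    | add x z _ _ hx hz =>
      rw [add_div]
      exact E.add_mem hx hz
    | smul c x _ hx =>
      rw [Algebra.smul_def, mul_div_assoc]
      exact E.mul_mem (E.algebraMap_mem c) hx
  have h1 := key p hp
  have h2 := key q hq
  have h3 : p / q = (p / v k) / (q / v k) := by
    field_simp
  rw [h3]
  exact E.div_mem h1 h2

end Lin

end Pool.Agent.Helper43.FV
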