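import Pool.Agent.Helper77.FV.U1

/-!
# Auxiliary facts on places and divisors for the module U
-/

namespace Pool.Agent.Helper43.FV

open Pool.Agent.Helper43.RS
open scoped ComplexConjugate TensorProduct
open MvPolynomial

section Acts

variable {F : Type} [Field F] [Algebra ℂ F]

theorem U_act_mul (a b : F ≃ₐ[ℂ] F) (w : Pl F) : actPl (a * b) w = actPl a (actPl b w) :=
  Subtype.ext (funext fun _ => rfl)

theorem U_act_one (w : Pl F) : actPl (1 : F ≃ₐ[ℂ] F) w = w :=
  Subtype.ext (funext fun _ => rfl)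

theorem U_act_inv_act (a : F ≃ₐ[ℂ] F) (w : Pl F) : actPl a⁻¹ (actPl a w) = w := by
  rw [← U_act_mul, inv_mul_cancel, U_act_one]

theorem U_act_act_inv (a : F ≃ₐ[ℂ] F) (w : Pl F) : actPl a (actPl a⁻¹ w) = w := by
  rw [← U_act_mul, mul_inv_cancel, U_act_one]

theorem U_act_apply (a : F ≃ₐ[ℂ] F) (w : Pl F) (f : F) : (actPl a w).1 (a f) = w.1 f := by
  show w.1 (a.symm (a f)) = w.1 f
  rw [AlgEquiv.symm_apply_apply]

theorem U_act_inj (a : F ≃ₐ[ℂ] F) : Function.Injective (actPl a) := by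
  intro w w' h
  rw [← U_act_inv_act a w, h, U_act_inv_act]

theorem U_act_surj (a : F ≃ₐ[ℂ] F) (w : Pl F) : ∃ w', actPl a w' = w :=
  ⟨actPl a⁻¹ w, U_act_act_inv a w⟩

theorem U_mapDv (a : F ≃ₐ[ℂ] F) (D : Dv F) (w : Pl F) : mapDv a D (actPl a w) = D w :=
  Finsupp.mapDomain_apply (U_act_inj a) D w

theorem U_dg_add (D D' : Dv F) : dg (D + D') = dg D + dg D' :=
  Finsupp.sum_add_index' (fun _ => rfl) (fun _ _ _ => rfl)

theorem U_dg_zero : dg (0 : Dv F) = 0 := Finsupp.sum_zero_index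

theorem U_dg_nsmul (m : ℕ) (D : Dv F) : dg (m • D) = m * dg D := by
  induction m with
  | zero => rw [zero_smul, U_dg_zero]; simp
  | succ m ih => rw [succ_nsmul, U_dg_add, ih]; push_cast; ring

theorem U_dg_single (w : Pl F) (m : ℤ) : dg (Finsupp.single w m : Dv F) = m :=
  Finsupp.sum_single_index rfl

theorem U_pow (w : Pl F) (f : F) (hf : f ≠ 0) (m : ℕ) : w.1 (f ^ m) = m * w.1 f := by
  induction m with
  | zero =>
    rw [pow_zero]
    have := w.2.const 1
    rw [map_one] at this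
    rw [this]
    simp
  | succ m ih =>
    rw [pow_succ, w.2.mul _ _ (pow_ne_zero m hf) hf, ih]
    push_cast
    ring

/-- base point freeness -/
theorem U_bpf (E : Dv F) (hE : ∀ w : Pl F, ∃ f ∈ LL E, f ≠ 0 ∧ w.1 f = -E w) (b : F ≃ₐ[ℂ] F)
    (g : F) (hg : g ≠ 0) (h1 : ∀ t ∈ LL E, ∃ s ∈ LL E, b t = g * s)
    (h2 : ∀ s ∈ LL E, ∃ t ∈ LL E, b t = g * s) (w : Pl F) :
    (actPl b w).1 g = E (actPl b w) - E w := by
  apply le_antisymm
  · obtain ⟨t, ht, ht0, ht1⟩ := hE w
    obtain ⟨s, hs, hs1⟩ := h1 t ht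
    have hs0 : s ≠ 0 := by
      rintro rfl
      rw [mul_zero] at hs1
      exact ht0 (b.injective (by rw [hs1, map_zero]))
    have h3 := U_act_apply b w t
    rw [hs1, (actPl b w).2.mul _ _ hg hs0] at h3
    have h4 := hs hs0 (actPl b w)
    omega
  · obtain ⟨s, hs, hs0, hs1⟩ := hE (actPl b w)
    obtain ⟨t, ht, ht1⟩ := h2 s hs
    have ht0 : t ≠ 0 := by
      rintro rfl
      rw [map_zero] at ht1
      exact (mul_ne_zero hg hs0) ht1.symm
    have h3 := U_act_apply b w t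
    rw [ht1, (actPl b w).2.mul _ _ hg hs0] at h3
    have h4 := ht ht0 w
    omega

/-- the easy direction -/
theorem U_fwd (E : Dv F) (b : F ≃ₐ[ℂ] F) (g : F) (hg : g ≠ 0)
    (h : ∀ w, (actPl b w).1 g = E w - E (actPl b w)) (t : F) (ht : t ∈ LL E) :
    g * b t ∈ LL E := by
  intro h0 w'
  obtain ⟨w, rfl⟩ := U_act_surj b w'
  have hbt : b t ≠ 0 := right_ne_zero_of_mul h0
  have ht0 : t ≠ 0 := by
    rintro rfl
    exact hbt (map_zero b)
  rw [(actPl b w).2.mul _ _ hg hbt, h w, U_act_apply]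
  have := ht ht0 w
  omega

end Acts

section Restr

variable {K : Type} [Field K] [Algebra ℂ K]

/-- restriction of the automorphisms to a stable subfield -/
theorem U_restr (A : Subgroup (K ≃ₐ[ℂ] K)) (F : IntermediateField ℂ K)
    (stab : ∀ a ∈ A, ∀ f ∈ F, a f ∈ F) :
    ∃ ρ : A →* (F ≃ₐ[ℂ] F), ∀ (a : A) (f : F), ((ρ a f : F) : K) = (a : K ≃ₐ[ℂ] K) f := by
  refine ⟨{ toFun := fun a =>
              { toFun := fun f => ⟨(a : K ≃ₐ[ℂ] K) f, stab a a.2 f f.2⟩
                invFun := fun f => ⟨((a⁻¹ : A) : K ≃ₐ[ℂ] K) f, stab _ (a⁻¹).2 f f.2⟩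
                left_inv := ?_
                right_inv := ?_
                map_mul' := ?_
                map_add' := ?_
                commutes' := ?_ }
            map_one' := ?_
            map_mul' := ?_ }, fun a f => rfl⟩
  · intro f
    apply Subtype.ext
    show ((a⁻¹ : A) : K ≃ₐ[ℂ] K) ((a : K ≃ₐ[ℂ] K) f) = f
    rw [Subgroup.coe_inv]
    exact (a : K ≃ₐ[ℂ] K).symm_apply_apply f
  · intro f
    apply Subtype.ext
    show (a : K ≃ₐ[ℂ] K) (((a⁻¹ : A) : K ≃ₐ[ℂ] K) f) = f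
    rw [Subgroup.coe_inv]
    exact (a : K ≃ₐ[ℂ] K).apply_symm_apply f
  · intro f g
    apply Subtype.ext
    exact map_mul (a : K ≃ₐ[ℂ] K) (f : K) (g : K)
  · intro f g
    apply Subtype.ext
    exact map_add (a : K ≃ₐ[ℂ] K) (f : K) (g : K)
  · intro c
    apply Subtype.ext
    exact (a : K ≃ₐ[ℂ] K).commutes c
  · ext f
    rfl
  · intro a b
    ext f
    rfl

/-- automorphisms of the model act on the places which are hit -/
theorem U_hit (X : Set (Subalgebra ℂ K)) (F : IntermediateField ℂ K) (a : K ≃ₐ[ℂ] K)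
    (ha : Pres X a) (b : F ≃ₐ[ℂ] F) (hb : ResTo F a b) (w : Pl F) (hw : w ∈ Hit X F) :
    actPl b w ∈ Hit X F := by
  obtain ⟨v, ⟨hv, O, hO, h1, h2⟩, e, he, hve⟩ := hw
  obtain ⟨O', hO', hOO⟩ := ha.1 O hO
  refine ⟨fun f => v (a.symm f), ⟨isPlace_comp hv a, O', hO', ?_, ?_⟩, e, he, ?_⟩
  · intro p hp
    apply h1
    rw [hOO, AlgEquiv.apply_symm_apply]
    exact hp
  · intro f hf
    obtain ⟨p, hp, q, hq, hq0, hvq, hpq⟩ := h2 (a.symm f) hf
    refine ⟨a p, (hOO p).mp hp, a q, (hOO q).mp hq, (map_ne_zero a).mpr hq0, ?_, ?_⟩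
    · show v (a.symm (a q)) = 0
      rw [AlgEquiv.symm_apply_apply]
      exact hvq
    · rw [← hpq, map_mul, AlgEquiv.apply_symm_apply]
  · intro f
    show v (a.symm f) = e * w.1 (b.symm f)
    rw [← hve]
    have h3 := hb (b.symm f)
    rw [AlgEquiv.apply_symm_apply] at h3
    rw [h3, AlgEquiv.symm_apply_apply]

/-- A subgroup of finite index of a subgroup. -/
theorem U_sub {G : Type} [Group G] (A : Subgroup G) (B : Subgroup A) (hB : B.index ≠ 0) :
    B.map A.subtype ≤ A ∧ (B.map A.subtype).relIndex A ≠ 0 := by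
  refine ⟨?_, ?_⟩
  · rintro _ ⟨b, -, rfl⟩
    exact b.2
  · rw [Subgroup.relIndex, Subgroup.subgroupOf,
      Subgroup.comap_map_eq_self_of_injective A.subtype_injective]
    exact hB

/-- The field generated by the ratios is everything. -/
theorem U_gen (F : IntermediateField ℂ K) (s : Finset F) (hs : FGen (s : Set F)) (n : ℕ)
    (y : Fin n → K) (hy : FGen (Set.range y)) (E : IntermediateField ℂ K)
    (h1 : ∀ z ∈ s, (z : K) ∈ E) (h2 : F ≤ E → ∀ i, y i ∈ E) : E = ⊤ := by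
  have hF : F ≤ E := by
    intro f hf
    have h3 : (⟨f, hf⟩ : F) ∈ IntermediateField.adjoin ℂ (s : Set F) := by
      rw [show IntermediateField.adjoin ℂ (s : Set F) = ⊤ from hs]
      exact IntermediateField.mem_top
    have h4 : ∀ z ∈ IntermediateField.adjoin ℂ (s : Set F), (z : K) ∈ E := by
      intro z hz
      induction hz using IntermediateField.adjoin_induction with
      | mem x hx => exact h1 x hx
      | algebraMap c => exact E.algebraMap_mem c
      | add x y _ _ hx hy => exact E.add_mem hx hy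
      | inv x _ hx => exact E.inv_mem hx
      | mul x y _ _ hx hy => exact E.mul_mem hx hy
    exact h4 _ h3
  have h5 : IntermediateField.adjoin ℂ (Set.range y) ≤ E := by
    rw [IntermediateField.adjoin_le_iff]
    rintro _ ⟨i, rfl⟩
    exact h2 hF i
  rw [show IntermediateField.adjoin ℂ (Set.range y) = ⊤ from hy] at h5
  exact top_le_iff.mp h5

end Restr

end Pool.Agent.Helper43.FV
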